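import Pool.Agent.H161.RP.Pert

/-!
# Integer certificates
-/

set_option autoImplicit false

namespace Pool.Agent.H161.RP

open Finset

variable {n d : ℕ}

/-- coordinates of a point of the list -/
def co (P : List (List ℤ)) (i : Fin n) (k : Fin d) : ℤ := (P.getD i []).getD k 0

/-- integer combination of the points, `k`-th coordinate -/
def comb (P : List (List ℤ)) (L : List (Fin n × ℤ)) (k : Fin d) : ℤ :=
  (L.map (fun p => p.2 * co P p.1 k)).sum

/-- total weight -/
def wt (L : List (Fin n × ℤ)) : ℤ := (L.map (fun p => |p.2|)).sum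

/-- the points as vectors -/
noncomputable def vec (d : ℕ) (P : List (List ℤ)) (i : Fin n) : EuclideanSpace ℝ (Fin d) :=
  WithLp.toLp 2 (fun k => (co P i k : ℝ))

/-- the coefficient function of a list -/
noncomputable def cf (L : List (Fin n × ℤ)) (k : Fin n) : ℝ :=
  (L.map (fun p => if p.1 = k then (p.2 : ℝ) else 0)).sum

theorem sum_cf_smul (x : Fin n → (EuclideanSpace ℝ (Fin d))) (L : List (Fin n × ℤ)) :
    ∑ k, cf L k • x k = (L.map (fun p => (p.2 : ℝ) • x p.1)).sum := by
  induction L with
  | nil => simp [cf]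
  | cons p L ih =>
    have h : ∀ k, cf (p :: L) k = (if p.1 = k then (p.2 : ℝ) else 0) + cf L k := fun k => by
      simp [cf]
    simp only [h, add_smul, sum_add_distrib, ih, List.map_cons, List.sum_cons]
    congr 1
    rw [sum_eq_single p.1]
    · simp
    · intro b _ hb; simp [Ne.symm hb]
    · simp

theorem sum_abs_cf (L : List (Fin n × ℤ)) : ∑ k, |cf L k| ≤ (wt L : ℝ) := by
  induction L with
  | nil => simp [cf, wt]
  | cons p L ih =>
    have h : ∀ k, cf (p :: L) k = (if p.1 = k then (p.2 : ℝ) else 0) + cf L k := fun k => by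
      simp [cf]
    have hw : (wt (p :: L) : ℝ) = |(p.2 : ℝ)| + wt L := by
      simp [wt]
    rw [hw]
    calc ∑ k, |cf (p :: L) k| ≤ ∑ k, (|(if p.1 = k then (p.2 : ℝ) else 0)| + |cf L k|) := by
          refine sum_le_sum (fun k _ => ?_)
          rw [h]; exact abs_add_le _ _
      _ = |(p.2 : ℝ)| + ∑ k, |cf L k| := by
          rw [sum_add_distrib]
          congr 1
          rw [sum_eq_single p.1]
          · simp
          · intro b _ hb; simp [Ne.symm hb]
          · simp
      _ ≤ _ := by gcongr

theorem coord_sum (P : List (List ℤ)) (L : List (Fin n × ℤ)) (k : Fin d) :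
    ((L.map (fun p => (p.2 : ℝ) • vec (n := n) d P p.1)).sum) k = (comb P L k : ℝ) := by
  induction L with
  | nil => simp [comb]
  | cons p L ih =>
    simp only [List.map_cons, List.sum_cons, PiLp.add_apply, ih, comb]
    push_cast
    simp [vec]

/-- sign of a boolean -/
def bs (b : Bool) : ℤ := if b then 1 else -1

/-- check of one certificate -/
def chk (d : ℕ) (P : List (List ℤ)) (i j : Fin n) (c : Bool × ℤ × ℤ × List (Fin n × ℤ)) : Bool :=
  ((List.finRange d).all fun k =>
    decide (c.2.1 * co P i k + c.2.2.1 * bs c.1 * co P j k = comb P c.2.2.2 k)) &&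
    decide (wt c.2.2.2 < c.2.1 + c.2.2.1)

theorem cert_of_chk {P : List (List ℤ)} {i j : Fin n} {c : Bool × ℤ × ℤ × List (Fin n × ℤ)}
    (h : chk d P i j c = true) :
    Cert (d := d) (vec d P) i j 1 ∨ Cert (d := d) (vec d P) i j (-1) := by
  obtain ⟨e, a, b, L⟩ := c
  simp only [chk, Bool.and_eq_true, List.all_eq_true, List.mem_finRange, decide_eq_true_eq,
    forall_true_left] at h
  obtain ⟨h1, h2⟩ := h
  have key : Cert (d := d) (vec d P) i j (bs e : ℝ) := by
    refine ⟨a, b, cf L, ?_, lt_of_le_of_lt (sum_abs_cf L) (by exact_mod_cast h2)⟩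
    rw [sum_cf_smul]
    ext k
    rw [coord_sum, ← h1 k]
    simp [vec]
  cases e with
  | true => left; simpa [bs] using key
  | false => right; simpa [bs] using key

/-- check of all certificates -/
def chkAll (d : ℕ) (P : List (List ℤ)) (C : List (List (Bool × ℤ × ℤ × List (Fin n × ℤ)))) : Bool :=
  (List.finRange n).all fun i => (List.finRange n).all fun j =>
    if i < j then chk d P i j ((C.getD i []).getD (j - i - 1) (true, 0, 0, [])) else true

/-- check of the certificates for the unit vectors -/
def chkSpan (d : ℕ) (P : List (List ℤ)) (D : ℤ) (S : List (List (Fin n × ℤ))) : Bool :=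
  decide (D ≠ 0) && ((List.finRange d).all fun a => (List.finRange d).all fun k =>
    decide (comb P (S.getD a []) k = if a = k then D else 0))

theorem span_of_chk {P : List (List ℤ)} {D : ℤ} {S : List (List (Fin n × ℤ))}
    (h : chkSpan d P D S = true) (v : (EuclideanSpace ℝ (Fin d))) : ∃ c : Fin n → ℝ, ∑ k, c k • vec d P k = v := by
  simp only [chkSpan, Bool.and_eq_true, List.all_eq_true, List.mem_finRange, decide_eq_true_eq,
    forall_true_left] at h
  obtain ⟨hD, h1⟩ := h
  rw [← Submodule.mem_span_range_iff_exists_fun]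
  have hsingle : ∀ a : Fin d, EuclideanSpace.single a (1 : ℝ) ∈
      Submodule.span ℝ (Set.range (vec (n := n) d P)) := by
    intro a
    have h2 : (D : ℝ) • EuclideanSpace.single a (1 : ℝ) ∈
        Submodule.span ℝ (Set.range (vec (n := n) d P)) := by
      rw [Submodule.mem_span_range_iff_exists_fun]
      refine ⟨cf (S.getD a []), ?_⟩
      rw [sum_cf_smul]
      ext k
      rw [coord_sum, h1 a k]
      by_cases hak : a = k
      · subst hak; simp
      · simp [hak, Ne.symm hak]
    have hD' : (D : ℝ) ≠ 0 := by exact_mod_cast hD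
    have h3 := Submodule.smul_mem _ ((D : ℝ)⁻¹) h2
    rwa [smul_smul, inv_mul_cancel₀ hD', one_smul] at h3
  have hv : v = ∑ a, v a • EuclideanSpace.single a (1 : ℝ) := by
    ext k
    simp [Pi.single_apply]
  rw [hv]
  exact Submodule.sum_mem _ (fun a _ => Submodule.smul_mem _ _ (hsingle a))

theorem triangulation {P : List (List ℤ)} {C : List (List (Bool × ℤ × ℤ × List (Fin n × ℤ)))}
    {D : ℤ} {S : List (List (Fin n × ℤ))} (h1 : chkAll d P C = true)
    (h2 : chkSpan d P D S = true) :
    ∃ K : Finset (Finset (Fin n)), (∀ σ ∈ K, ∀ τ, τ ⊆ σ → τ ∈ K) ∧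
      Nonempty (realization K ≃ₜ Quotient (antipodal d)) := by
  refine main (span_of_chk h2) (fun i j hij => ?_)
  simp only [chkAll, List.all_eq_true, List.mem_finRange, forall_true_left] at h1
  have := h1 i j
  rw [if_pos hij] at this
  exact cert_of_chk this

end Pool.Agent.H161.RP
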