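import Pool.Agent.H161.RP.Topo

/-!
# Generic perturbation

Small generic perturbations of a point set are in general position, and keep strict certificates
for missing edges.
-/

set_option autoImplicit false

namespace Pool.Agent.H161.RP

open Finset Topology MeasureTheory

variable {n d : ℕ}

/-- sign given by a set -/
def sg (U : Finset (Fin n)) (t : Fin n) : ℝ := if t ∈ U then -1 else 1

theorem sg_mul_self (U : Finset (Fin n)) (t : Fin n) : sg U t * sg U t = 1 := by
  unfold sg; split_ifs <;> norm_num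

/-- the affine span of few points -/
theorem affineSpan_ne_top (T : Finset (Fin n)) (hT : T.card ≤ d) (y : T → (EuclideanSpace ℝ (Fin d))) :
    affineSpan ℝ (Set.range y) ≠ ⊤ := by
  intro h
  rcases T.eq_empty_or_nonempty with rfl | hne
  · have : Set.range y = ∅ := by
      rw [Set.range_eq_empty_iff]
      exact ⟨fun ⟨_, ht⟩ => by simp at ht⟩
    rw [this, AffineSubspace.span_empty] at h
    exact bot_ne_top h
  · obtain ⟨m, hm⟩ : ∃ m, T.card = m + 1 := ⟨T.card - 1, by have := hne.card_pos; omega⟩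
    have h1 : Module.finrank ℝ (vectorSpan ℝ (Set.range y)) ≤ m :=
      finrank_vectorSpan_range_le ℝ y (by rw [Fintype.card_coe]; exact hm)
    have h2 : vectorSpan ℝ (Set.range y) = ⊤ := by
      rw [← direction_affineSpan, h, AffineSubspace.direction_top]
    rw [h2, finrank_top, finrank_euclideanSpace_fin] at h1
    omega

/-- the general position property -/
def Gen (x : Fin n → (EuclideanSpace ℝ (Fin d))) (B : Finset (Fin n)) : Prop :=
  ∀ S ⊆ B, ∀ f : (EuclideanSpace ℝ (Fin d)) →L[ℝ] ℝ, (∀ i ∈ S, |f (x i)| = 1) →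
    LinearIndependent ℝ (fun i : S => x i)

theorem exists_point (x : Fin n → (EuclideanSpace ℝ (Fin d))) (z0 : (EuclideanSpace ℝ (Fin d))) {ε : ℝ} (hε : 0 < ε) :
    ∃ z : (EuclideanSpace ℝ (Fin d)), ‖z - z0‖ < ε ∧ ∀ T U : Finset (Fin n), T.card ≤ d →
      z ∉ affineSpan ℝ (Set.range (fun t : T => sg U t • x t)) := by
  by_contra hno
  push Not at hno
  have hsub : Metric.ball z0 ε ⊆ ⋃ p : {p : Finset (Fin n) × Finset (Fin n) // p.1.card ≤ d},
      (affineSpan ℝ (Set.range (fun t : p.1.1 => sg p.1.2 t • x t)) : Set (EuclideanSpace ℝ (Fin d))) := by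
    intro z hz
    rw [mem_ball_iff_norm] at hz
    obtain ⟨T, U, hT, h⟩ := hno z hz
    exact Set.mem_iUnion.2 ⟨⟨(T, U), hT⟩, h⟩
  have h0 : (volume : Measure (EuclideanSpace ℝ (Fin d))) (⋃ p : {p : Finset (Fin n) × Finset (Fin n) // p.1.card ≤ d},
      (affineSpan ℝ (Set.range (fun t : p.1.1 => sg p.1.2 t • x t)) : Set (EuclideanSpace ℝ (Fin d)))) = 0 := by
    refine measure_iUnion_null (fun p => ?_)
    exact Measure.addHaar_affineSubspace _ _ (affineSpan_ne_top _ p.2 _)
  have h1 := measure_mono_null hsub h0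
  exact (Metric.measure_ball_pos volume z0 hε).ne' h1

theorem gen_insert {x : Fin n → (EuclideanSpace ℝ (Fin d))} {B : Finset (Fin n)} (h : Gen x B) {a : Fin n} (ha : a ∉ B)
    {z : (EuclideanSpace ℝ (Fin d))} (hz : ∀ T U : Finset (Fin n), T.card ≤ d →
      z ∉ affineSpan ℝ (Set.range (fun t : T => sg U t • x t))) :
    Gen (Function.update x a z) (insert a B) := by
  intro S hS f hf
  have hupd : ∀ i, i ≠ a → Function.update x a z i = x i := fun i hi =>
    Function.update_of_ne hi _ _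
  have hne : ∀ i ∈ B, i ≠ a := fun i hi h' => ha (h' ▸ hi)
  by_cases haS : a ∈ S
  · -- `T = S \ {a}`
    set T := S.erase a with hT
    have hTB : T ⊆ B := by
      intro i hi
      rw [hT, mem_erase] at hi
      have := hS hi.2
      rw [mem_insert] at this
      exact this.resolve_left hi.1
    have hfT : ∀ i ∈ T, |f (x i)| = 1 := by
      intro i hi
      have h1 := hf i (mem_of_mem_erase hi)
      rwa [hupd i (hne i (hTB hi))] at h1
    have hli := h T hTB f hfT
    have hfz : |f z| = 1 := by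
      have := hf a haS
      rwa [Function.update_self] at this
    have hcard : T.card ≤ d := by
      have := hli.fintype_card_le_finrank
      rwa [Fintype.card_coe, finrank_euclideanSpace_fin] at this
    rw [Fintype.linearIndependent_iff]
    intro g hg
    -- coefficients
    set G : Fin n → ℝ := fun i => if hi : i ∈ S then g ⟨i, hi⟩ else 0 with hG
    have hsum : ∑ i ∈ S, G i • Function.update x a z i = 0 := by
      rw [← hg, ← Finset.sum_coe_sort S (fun i => G i • Function.update x a z i)]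
      refine sum_congr rfl (fun i _ => ?_)
      simp [hG]
    rw [← insert_erase haS, sum_insert (notMem_erase a S), Function.update_self] at hsum
    have hsum2 : ∑ i ∈ T, G i • Function.update x a z i = ∑ i ∈ T, G i • x i := by
      refine sum_congr rfl (fun i hi => ?_)
      rw [hupd i (hne i (hTB hi))]
    rw [hsum2] at hsum
    have hGa : G a = 0 := by
      by_contra hGa
      -- z = ∑ c_i x_i
      have hz1 : z = ∑ i ∈ T, (-(G a)⁻¹ * G i) • x i := by
        have h1 : G a • z = -∑ i ∈ T, G i • x i := eq_neg_of_add_eq_zero_left hsum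
        have h2 : z = (G a)⁻¹ • (G a • z) := by rw [smul_smul, inv_mul_cancel₀ hGa, one_smul]
        rw [h2, h1, smul_neg, smul_sum, ← sum_neg_distrib]
        refine sum_congr rfl (fun i _ => ?_)
        rw [smul_smul, neg_mul, neg_smul]
      -- signs
      set U : Finset (Fin n) := univ.filter (fun i => f z * f (x i) = -1) with hU
      have hsg : ∀ i ∈ T, sg U i = f z * f (x i) := by
        intro i hi
        have h1 : |f z * f (x i)| = 1 := by rw [abs_mul, hfz, hfT i hi, one_mul]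
        unfold sg
        by_cases h2 : f z * f (x i) = -1
        · rw [if_pos (by simp [hU, h2]), h2]
        · rw [if_neg (by simp [hU, h2])]
          rcases (abs_eq zero_le_one).1 h1 with h3 | h3
          · exact h3.symm
          · exact absurd h3 h2
      apply hz T U hcard
      have hw : ∑ t : T, (-(G a)⁻¹ * G t) * sg U t = 1 := by
        have h1 : f z = ∑ i ∈ T, (-(G a)⁻¹ * G i) * f (x i) := by
          conv_lhs => rw [hz1]
          simp [map_sum]
        have h2 : f z * f z = 1 := by rw [← abs_mul_abs_self, hfz, one_mul]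
        rw [Finset.sum_coe_sort T (fun t => (-(G a)⁻¹ * G t) * sg U t)]
        calc ∑ i ∈ T, (-(G a)⁻¹ * G i) * sg U i
            = ∑ i ∈ T, f z * ((-(G a)⁻¹ * G i) * f (x i)) := by
              refine sum_congr rfl (fun i hi => ?_)
              rw [hsg i hi]; ring
          _ = f z * f z := by rw [← mul_sum, ← h1]
          _ = 1 := h2
      have hcomb : z = Finset.univ.affineCombination ℝ (fun t : T => sg U t • x t)
          (fun t : T => (-(G a)⁻¹ * G t) * sg U t) := by
        rw [Finset.affineCombination_eq_linear_combination _ _ _ hw]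
        conv_lhs => rw [hz1]
        rw [← Finset.sum_coe_sort T (fun i => (-(G a)⁻¹ * G i) • x i)]
        refine sum_congr rfl (fun t _ => ?_)
        rw [smul_smul, mul_assoc, sg_mul_self, mul_one]
      rw [hcomb]
      exact affineCombination_mem_affineSpan hw _
    rw [hGa, zero_smul, zero_add] at hsum
    have hli2 := Fintype.linearIndependent_iff.1 hli (fun t => G t) (by
      rw [Finset.sum_coe_sort T (fun i => G i • x i)]; exact hsum)
    rintro ⟨i, hi⟩
    have h1 : g ⟨i, hi⟩ = G i := by simp [hG, hi]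
    rw [h1]
    by_cases hia : i = a
    · rw [hia, hGa]
    · exact hli2 ⟨i, mem_erase.2 ⟨hia, hi⟩⟩
  · have hSB : S ⊆ B := by
      intro i hi
      have := hS hi
      rw [mem_insert] at this
      rcases this with h1 | h1
      · exact absurd (h1 ▸ hi) haS
      · exact h1
    have hfun : (fun i : S => Function.update x a z i) = (fun i : S => x i) := by
      funext i
      exact hupd i (hne i (hSB i.2))
    rw [hfun]
    exact h S hSB f (fun i hi => by
      have := hf i hi
      rwa [hupd i (hne i (hSB hi))] at this)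

theorem exists_gen (x : Fin n → (EuclideanSpace ℝ (Fin d))) {ε : ℝ} (hε : 0 < ε) (B : Finset (Fin n)) :
    ∃ x' : Fin n → (EuclideanSpace ℝ (Fin d)), (∀ i, ‖x' i - x i‖ < ε) ∧ Gen x' B := by
  induction B using Finset.induction_on with
  | empty =>
    refine ⟨x, fun i => by simpa using hε, ?_⟩
    intro S hS f hf
    have : S = ∅ := subset_empty.1 hS
    subst this
    exact linearIndependent_empty_type
  | insert a B ha ih =>
    obtain ⟨x', h1, h2⟩ := ih
    obtain ⟨z, hz1, hz2⟩ := exists_point x' (x a) hε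
    refine ⟨Function.update x' a z, fun i => ?_, gen_insert h2 ha hz2⟩
    by_cases hi : i = a
    · subst hi; rw [Function.update_self]; exact hz1
    · rw [Function.update_of_ne hi]; exact h1 i

/-! ### boundedness and certificates -/

theorem bounded_of_near {x : Fin n → (EuclideanSpace ℝ (Fin d))} {C : ℝ} (hC0 : 0 < C)
    (hC : ∀ v : (EuclideanSpace ℝ (Fin d)), ∃ c : Fin n → ℝ, ∑ k, c k • x k = v ∧ ∑ k, |c k| ≤ C * ‖v‖)
    {x' : Fin n → (EuclideanSpace ℝ (Fin d))} {ε : ℝ} (hx : ∀ i, ‖x' i - x i‖ ≤ ε) (hε : C * ε ≤ 1 / 2)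
    {f : (EuclideanSpace ℝ (Fin d)) →L[ℝ] ℝ} (hf : Feas x' f) : ‖f‖ ≤ 2 * C := by
  have h1 : ∀ k, |f (x k)| ≤ 1 + ‖f‖ * ε := by
    intro k
    have e : f (x k) = f (x' k) - f (x' k - x k) := by rw [map_sub]; ring
    rw [e]
    refine (abs_sub _ _).trans ?_
    have h2 : |f (x' k - x k)| ≤ ‖f‖ * ε := by
      refine (f.le_opNorm _).trans ?_
      gcongr
      exact hx k
    linarith [hf k]
  have hnn : 0 ≤ ‖f‖ := norm_nonneg f
  have hbd : 0 ≤ 1 + ‖f‖ * ε ∨ n = 0 := by
    by_cases hn : n = 0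
    · exact Or.inr hn
    · left
      exact (abs_nonneg _).trans (h1 ⟨0, Nat.pos_of_ne_zero hn⟩)
  have h3 : ‖f‖ ≤ C * (1 + ‖f‖ * ε) := by
    rcases hbd with hbd | hn
    · refine f.opNorm_le_bound (by positivity) (fun v => ?_)
      obtain ⟨c, hc1, hc2⟩ := hC v
      have e : f v = ∑ k, c k * f (x k) := by rw [← hc1]; simp [map_sum]
      rw [e, Real.norm_eq_abs]
      calc |∑ k, c k * f (x k)| ≤ ∑ k, |c k * f (x k)| := abs_sum_le_sum_abs _ _
        _ ≤ ∑ k, |c k| * (1 + ‖f‖ * ε) := by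
            refine sum_le_sum (fun k _ => ?_)
            rw [abs_mul]
            gcongr
            exact h1 k
        _ = (∑ k, |c k|) * (1 + ‖f‖ * ε) := by rw [sum_mul]
        _ ≤ (C * ‖v‖) * (1 + ‖f‖ * ε) := by gcongr
        _ = C * (1 + ‖f‖ * ε) * ‖v‖ := by ring
    · subst hn
      have hf0 : f = 0 := by
        ext v
        obtain ⟨c, hc1, -⟩ := hC v
        rw [← hc1]; simp
      rw [hf0]; simp [hC0.le]
  nlinarith

/-- a certificate for a missing edge -/
def Cert (x : Fin n → (EuclideanSpace ℝ (Fin d))) (i j : Fin n) (s : ℝ) : Prop :=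
  ∃ (a b : ℝ) (m : Fin n → ℝ), a • x i + (b * s) • x j = ∑ k, m k • x k ∧ ∑ k, |m k| < a + b

theorem cert_stable {x : Fin n → (EuclideanSpace ℝ (Fin d))} {i j : Fin n} {s : ℝ} (hs : s * s = 1) (h : Cert x i j s)
    (M : ℝ) (hM : 0 < M) :
    ∃ δ > 0, ∀ x' : Fin n → (EuclideanSpace ℝ (Fin d)), (∀ k, ‖x' k - x k‖ ≤ δ) → ∀ f : (EuclideanSpace ℝ (Fin d)) →L[ℝ] ℝ, Feas x' f → ‖f‖ ≤ M →
      ¬ (f (x' i) = 1 ∧ f (x' j) = s) := by
  obtain ⟨a, b, m, h1, h2⟩ := h
  set D : ℝ := |a| + |b * s| + ∑ k, |m k| with hD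
  have hD0 : 0 ≤ D := by positivity
  have hgap : 0 < a + b - ∑ k, |m k| := by linarith
  refine ⟨(a + b - ∑ k, |m k|) / (2 * M * (D + 1)), by positivity, ?_⟩
  intro x' hx f hf hfM ⟨hi, hj⟩
  set δ := (a + b - ∑ k, |m k|) / (2 * M * (D + 1)) with hδ
  have hδ0 : 0 < δ := by positivity
  have e1 : a + b = f (a • x' i + (b * s) • x' j) := by
    rw [map_add, map_smul, map_smul, hi, hj, smul_eq_mul, smul_eq_mul, mul_one, mul_assoc, hs,
      mul_one]
  have e2 : a • x' i + (b * s) • x' j = ∑ k, m k • x' k +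
      (a • (x' i - x i) + (b * s) • (x' j - x j) - ∑ k, m k • (x' k - x k)) := by
    simp only [smul_sub, sum_sub_distrib]
    rw [← h1]; abel
  have e3 : f (∑ k, m k • x' k) ≤ ∑ k, |m k| := apply_le hf m
  have e4 : ‖a • (x' i - x i) + (b * s) • (x' j - x j) - ∑ k, m k • (x' k - x k)‖ ≤ D * δ := by
    calc ‖a • (x' i - x i) + (b * s) • (x' j - x j) - ∑ k, m k • (x' k - x k)‖
        ≤ ‖a • (x' i - x i) + (b * s) • (x' j - x j)‖ + ‖∑ k, m k • (x' k - x k)‖ := norm_sub_le _ _
      _ ≤ (‖a • (x' i - x i)‖ + ‖(b * s) • (x' j - x j)‖) + ∑ k, ‖m k • (x' k - x k)‖ := by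
          gcongr
          · exact norm_add_le _ _
          · exact norm_sum_le _ _
      _ ≤ (|a| * δ + |b * s| * δ) + ∑ k, |m k| * δ := by
          refine add_le_add (add_le_add ?_ ?_) (sum_le_sum fun k _ => ?_)
          · rw [norm_smul, Real.norm_eq_abs]; gcongr; exact hx i
          · rw [norm_smul, Real.norm_eq_abs]; gcongr; exact hx j
          · rw [norm_smul, Real.norm_eq_abs]; gcongr; exact hx k
      _ = D * δ := by rw [← sum_mul, hD]; ring
  have e5 : f (a • (x' i - x i) + (b * s) • (x' j - x j) - ∑ k, m k • (x' k - x k)) ≤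
      M * (D * δ) := by
    refine (le_abs_self _).trans ((f.le_opNorm _).trans ?_)
    gcongr
  have e6 : M * (D * δ) < a + b - ∑ k, |m k| := by
    have : M * (D * δ) = (a + b - ∑ k, |m k|) * (D / (2 * (D + 1))) := by
      rw [hδ]; field_simp
    rw [this]
    have h5 : D / (2 * (D + 1)) < 1 := by
      rw [div_lt_one (by positivity)]; linarith
    nlinarith
  have e7 : f (a • x' i + (b * s) • x' j) = f (∑ k, m k • x' k) +
      f (a • (x' i - x i) + (b * s) • (x' j - x j) - ∑ k, m k • (x' k - x k)) := by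
    rw [e2, map_add]
  linarith

theorem main {x : Fin n → (EuclideanSpace ℝ (Fin d))} (hspan : ∀ v : (EuclideanSpace ℝ (Fin d)), ∃ c : Fin n → ℝ, ∑ k, c k • x k = v)
    (hcert : ∀ i j : Fin n, i < j → Cert x i j 1 ∨ Cert x i j (-1)) :
    ∃ K : Finset (Finset (Fin n)), (∀ σ ∈ K, ∀ τ, τ ⊆ σ → τ ∈ K) ∧
      Nonempty (realization K ≃ₜ Quotient (antipodal d)) := by
  classical
  -- the constant `C`
  obtain ⟨C, hC0, hC⟩ : ∃ C : ℝ, 0 < C ∧
      ∀ v : (EuclideanSpace ℝ (Fin d)), ∃ c : Fin n → ℝ, ∑ k, c k • x k = v ∧ ∑ k, |c k| ≤ C * ‖v‖ := by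
    let L : (Fin n → ℝ) →L[ℝ] (EuclideanSpace ℝ (Fin d)) := LinearMap.toContinuousLinearMap
      { toFun := fun c => ∑ k, c k • x k
        map_add' := fun a b => by simp [add_smul, sum_add_distrib]
        map_smul' := fun a b => by simp [smul_sum, smul_smul] }
    have hL : Function.Surjective L := fun v => by
      obtain ⟨c, hc⟩ := hspan v
      exact ⟨c, hc⟩
    obtain ⟨C, hC0, hC⟩ := L.exists_preimage_norm_le hL
    refine ⟨(n + 1) * C, by positivity, fun v => ?_⟩
    obtain ⟨c, hc1, hc2⟩ := hC v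
    refine ⟨c, hc1, ?_⟩
    calc ∑ k, |c k| ≤ ∑ _k : Fin n, ‖c‖ := sum_le_sum (fun k _ => norm_le_pi_norm c k)
      _ = n * ‖c‖ := by simp
      _ ≤ n * (C * ‖v‖) := by gcongr
      _ ≤ (n + 1) * C * ‖v‖ := by nlinarith [mul_nonneg hC0.le (norm_nonneg v)]
  -- the pairs
  have hpair : ∀ p : Fin n × Fin n, ∃ δ > 0, p.1 < p.2 →
      ∃ s : ℝ, (s = 1 ∨ s = -1) ∧ ∀ x' : Fin n → (EuclideanSpace ℝ (Fin d)), (∀ k, ‖x' k - x k‖ ≤ δ) →
        ∀ f : (EuclideanSpace ℝ (Fin d)) →L[ℝ] ℝ, Feas x' f → ‖f‖ ≤ 2 * C → ¬ (f (x' p.1) = 1 ∧ f (x' p.2) = s) := by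
    rintro ⟨i, j⟩
    by_cases hij : i < j
    · rcases hcert i j hij with h | h
      · obtain ⟨δ, h1, h2⟩ := cert_stable (by norm_num) h (2 * C) (by positivity)
        exact ⟨δ, h1, fun _ => ⟨1, Or.inl rfl, h2⟩⟩
      · obtain ⟨δ, h1, h2⟩ := cert_stable (by norm_num) h (2 * C) (by positivity)
        exact ⟨δ, h1, fun _ => ⟨-1, Or.inr rfl, h2⟩⟩
    · exact ⟨1, one_pos, fun h => absurd h hij⟩
  choose δ hδ0 hδ using hpair
  obtain ⟨ε, hε0, hε1, hε2⟩ : ∃ ε : ℝ, 0 < ε ∧ C * ε ≤ 1 / 2 ∧ ∀ p, ε ≤ δ p := by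
    have : ∃ ε : ℝ, 0 < ε ∧ ∀ p ∈ (univ : Finset (Fin n × Fin n)), ε ≤ δ p := by
      refine Finset.induction_on (univ : Finset (Fin n × Fin n)) ⟨1, one_pos, by simp⟩ ?_
      rintro p S - ⟨ε, h1, h2⟩
      refine ⟨min ε (δ p), lt_min h1 (hδ0 p), fun q hq => ?_⟩
      rcases mem_insert.1 hq with rfl | hq
      · exact min_le_right _ _
      · exact (min_le_left _ _).trans (h2 q hq)
    obtain ⟨ε, h1, h2⟩ := this
    refine ⟨min ε (1 / (2 * C)), lt_min h1 (by positivity), ?_, fun p =>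
      (min_le_left _ _).trans (h2 p (mem_univ p))⟩
    calc C * min ε (1 / (2 * C)) ≤ C * (1 / (2 * C)) := by gcongr; exact min_le_right _ _
      _ = 1 / 2 := by field_simp
  obtain ⟨x', hx', hgen⟩ := exists_gen x hε0 univ
  have hx'' : ∀ i, ‖x' i - x i‖ ≤ ε := fun i => (hx' i).le
  have hbd : ∀ f : (EuclideanSpace ℝ (Fin d)) →L[ℝ] ℝ, Feas x' f → ‖f‖ ≤ 2 * C := fun f hf =>
    bounded_of_near hC0 hC hx'' hε1 hf
  have hlt : ∀ i j, i < j → ¬ ((∃ f : (EuclideanSpace ℝ (Fin d)) →L[ℝ] ℝ, Feas x' f ∧ f (x' i) = 1 ∧ f (x' j) = 1) ∧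
      (∃ f : (EuclideanSpace ℝ (Fin d)) →L[ℝ] ℝ, Feas x' f ∧ f (x' i) = 1 ∧ f (x' j) = -1)) := by
    rintro i j hij ⟨⟨f, hf, h1, h2⟩, ⟨f', hf', h1', h2'⟩⟩
    obtain ⟨s, hs, h⟩ := hδ (i, j) hij
    have hx3 : ∀ k, ‖x' k - x k‖ ≤ δ (i, j) := fun k => (hx'' k).trans (hε2 _)
    rcases hs with rfl | rfl
    · exact h x' hx3 f hf (hbd f hf) ⟨h1, h2⟩
    · exact h x' hx3 f' hf' (hbd f' hf') ⟨h1', h2'⟩
  refine ⟨cplx x', ?_, homeo ⟨2 * C, hbd⟩ ?_ ?_⟩
  · intro σ hσ τ hτ
    rw [cplx, mem_filter] at hσ ⊢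
    obtain ⟨-, f, hf, h⟩ := hσ
    exact ⟨mem_univ _, f, hf, fun i hi => h i (hτ hi)⟩
  · intro f hf
    have h := hgen (univ.filter (fun i => |f (x' i)| = 1)) (subset_univ _) f (by simp)
    have := h.comp (fun i : {i : Fin n // |f (x' i)| = 1} =>
      (⟨i.1, by simpa using i.2⟩ : {i // i ∈ univ.filter (fun i => |f (x' i)| = 1)}))
      (fun i j hij => Subtype.ext (Subtype.mk.inj hij))
    exact this
  · intro i j hij
    rcases lt_or_gt_of_ne hij with h | h
    · exact hlt i j h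
    · rintro ⟨⟨f, hf, h1, h2⟩, ⟨f', hf', h1', h2'⟩⟩
      exact hlt j i h ⟨⟨f, hf, h2, h1⟩, ⟨-f', fun k => by simpa using hf' k, by simp [h2'],
        by simp [h1']⟩⟩

end Pool.Agent.H161.RP
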