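import Mathlib

/-!
# Triangulations of real projective space from centrally symmetric point sets

Let `x : Fin n → ℝ^d` be such that the functionals `f` with `|f (x k)| ≤ 1` for all `k` (*feasible*
functionals) are bounded, that the `x i` with `|f (x i)| = 1` are linearly independent for all of
them, and that for `i ≠ j` there are not two feasible functionals with the values `(1, 1)` and
`(1, -1)` at `x i`, `x j`. Then the sets of indices contained in some `{i | |f (x i)| = 1}` form a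
simplicial complex with realization homeomorphic to the real projective space of dimension `d - 1`.
-/

set_option autoImplicit false

namespace Pool.Agent.H161.RP

open Finset Topology

/-- the equivalence relation `u ~ ± u` on the unit sphere of `ℝ^d` -/
def antipodal (d : ℕ) : Setoid (Metric.sphere (0 : EuclideanSpace ℝ (Fin d)) 1) where
  r u v := u = v ∨ (u : EuclideanSpace ℝ (Fin d)) = -(v : EuclideanSpace ℝ (Fin d))
  iseqv := by
    refine ⟨fun u => Or.inl rfl, ?_, ?_⟩
    · rintro u v (h | h)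
      · exact Or.inl h.symm
      · exact Or.inr (by rw [h, neg_neg])
    · rintro u v w (h | h) (h' | h')
      · exact Or.inl (h.trans h')
      · subst h; exact Or.inr h'
      · subst h'; exact Or.inr h
      · refine Or.inl (Subtype.ext ?_)
        rw [h, h', neg_neg]

/-- real projective space of dimension `m`, the quotient of the unit sphere of `ℝ^(m+1)` by the
antipodal map, with the quotient topology -/
abbrev RealProj (m : ℕ) : Type := Quotient (antipodal (m + 1))

/-- the geometric realization of a simplicial complex with vertices in `Fin n`, in barycentric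
coordinates -/
def realization {n : ℕ} (K : Finset (Finset (Fin n))) : Set (Fin n → ℝ) :=
  {t | (∀ i, 0 ≤ t i) ∧ ∑ i, t i = 1 ∧ univ.filter (fun i => t i ≠ 0) ∈ K}

variable {n d : ℕ}

/-- feasible functionals -/
def Feas (x : Fin n → (EuclideanSpace ℝ (Fin d))) (f : (EuclideanSpace ℝ (Fin d)) →L[ℝ] ℝ) : Prop := ∀ k, |f (x k)| ≤ 1

open Classical in
/-- the complex -/
noncomputable def cplx (x : Fin n → (EuclideanSpace ℝ (Fin d))) : Finset (Finset (Fin n)) :=
  univ.filter (fun S => ∃ f : (EuclideanSpace ℝ (Fin d)) →L[ℝ] ℝ, Feas x f ∧ ∀ i ∈ S, |f (x i)| = 1)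

/-- the double cover, in signed barycentric coordinates -/
def A (x : Fin n → (EuclideanSpace ℝ (Fin d))) : Set (Fin n → ℝ) :=
  {c | ∑ k, |c k| = 1 ∧ ∃ f : (EuclideanSpace ℝ (Fin d)) →L[ℝ] ℝ, Feas x f ∧ f (∑ k, c k • x k) = 1}

theorem apply_sum (x : Fin n → (EuclideanSpace ℝ (Fin d))) (f : (EuclideanSpace ℝ (Fin d)) →L[ℝ] ℝ) (c : Fin n → ℝ) :
    f (∑ k, c k • x k) = ∑ k, c k * f (x k) := by
  simp [map_sum]

theorem term_le {x : Fin n → (EuclideanSpace ℝ (Fin d))} {f : (EuclideanSpace ℝ (Fin d)) →L[ℝ] ℝ} (hf : Feas x f) (c : Fin n → ℝ) (k : Fin n) :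
    c k * f (x k) ≤ |c k| := by
  calc c k * f (x k) ≤ |c k * f (x k)| := le_abs_self _
    _ = |c k| * |f (x k)| := abs_mul _ _
    _ ≤ |c k| * 1 := by gcongr; exact hf k
    _ = |c k| := mul_one _

theorem apply_le {x : Fin n → (EuclideanSpace ℝ (Fin d))} {f : (EuclideanSpace ℝ (Fin d)) →L[ℝ] ℝ} (hf : Feas x f) (c : Fin n → ℝ) :
    f (∑ k, c k • x k) ≤ ∑ k, |c k| := by
  rw [apply_sum]
  exact sum_le_sum (fun k _ => term_le hf c k)

/-- the values of a witness -/
theorem witness {x : Fin n → (EuclideanSpace ℝ (Fin d))} {f : (EuclideanSpace ℝ (Fin d)) →L[ℝ] ℝ} (hf : Feas x f) {c : Fin n → ℝ}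
    (hc : ∑ k, |c k| = 1) (h : f (∑ k, c k • x k) = 1) (k : Fin n) :
    c k * f (x k) = |c k| := by
  rw [apply_sum, ← hc] at h
  exact (sum_eq_sum_iff_of_le (fun k _ => term_le hf c k)).1 h k (mem_univ k)

theorem witness_abs {x : Fin n → (EuclideanSpace ℝ (Fin d))} {f : (EuclideanSpace ℝ (Fin d)) →L[ℝ] ℝ} (hf : Feas x f) {c : Fin n → ℝ}
    (hc : ∑ k, |c k| = 1) (h : f (∑ k, c k • x k) = 1) {k : Fin n} (hk : c k ≠ 0) :
    |f (x k)| = 1 := by
  have h1 := witness hf hc h k
  have h2 : |c k| * |f (x k)| = |c k| := by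
    rw [← abs_mul, h1, abs_abs]
  have h3 : 0 < |c k| := abs_pos.2 hk
  exact mul_left_cancel₀ h3.ne' (by rw [h2, mul_one])

theorem neg_mem_A {x : Fin n → (EuclideanSpace ℝ (Fin d))} {c : Fin n → ℝ} (hc : c ∈ A x) : -c ∈ A x := by
  obtain ⟨h1, f, hf, h2⟩ := hc
  refine ⟨by simpa using h1, -f, fun k => by simpa using hf k, ?_⟩
  simpa using h2

/-- the map to `ℝ^d` -/
theorem image_ne_zero {x : Fin n → (EuclideanSpace ℝ (Fin d))} {c : Fin n → ℝ} (hc : c ∈ A x) : ∑ k, c k • x k ≠ 0 := by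
  obtain ⟨_, f, _, h2⟩ := hc
  intro h
  rw [h, map_zero] at h2
  exact zero_ne_one h2

/-! ### compactness -/

theorem isCompact_feas (x : Fin n → (EuclideanSpace ℝ (Fin d))) (hC : ∃ C : ℝ, ∀ f : (EuclideanSpace ℝ (Fin d)) →L[ℝ] ℝ, Feas x f → ‖f‖ ≤ C) :
    IsCompact {f : (EuclideanSpace ℝ (Fin d)) →L[ℝ] ℝ | Feas x f} := by
  obtain ⟨C, hC⟩ := hC
  have : FiniteDimensional ℝ ((EuclideanSpace ℝ (Fin d)) →L[ℝ] ℝ) := inferInstance
  have : ProperSpace ((EuclideanSpace ℝ (Fin d)) →L[ℝ] ℝ) := FiniteDimensional.proper ℝ _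
  refine Metric.isCompact_of_isClosed_isBounded ?_ ?_
  · have : {f : (EuclideanSpace ℝ (Fin d)) →L[ℝ] ℝ | Feas x f} = ⋂ k, {f : (EuclideanSpace ℝ (Fin d)) →L[ℝ] ℝ | |f (x k)| ≤ 1} := by
      ext f; simp [Feas]
    rw [this]
    refine isClosed_iInter (fun k => isClosed_le ?_ continuous_const)
    have : Continuous (fun f : (EuclideanSpace ℝ (Fin d)) →L[ℝ] ℝ => f (x k)) := by fun_prop
    exact this.abs
  · rw [Metric.isBounded_iff_subset_closedBall (0 : (EuclideanSpace ℝ (Fin d)) →L[ℝ] ℝ)]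
    refine ⟨C, fun f hf => ?_⟩
    rw [mem_closedBall_zero_iff]
    exact hC f hf

theorem isCompact_l1 : IsCompact {c : Fin n → ℝ | ∑ k, |c k| ≤ 1} := by
  refine Metric.isCompact_of_isClosed_isBounded ?_ ?_
  · exact isClosed_le (by fun_prop) continuous_const
  · rw [Metric.isBounded_iff_subset_closedBall (0 : Fin n → ℝ)]
    refine ⟨1, fun c hc => ?_⟩
    rw [mem_closedBall_zero_iff, pi_norm_le_iff_of_nonneg zero_le_one]
    intro k
    rw [Real.norm_eq_abs]
    exact (single_le_sum (f := fun k => |c k|) (fun i _ => abs_nonneg _) (mem_univ k)).trans hc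

theorem isCompact_A (x : Fin n → (EuclideanSpace ℝ (Fin d))) (hC : ∃ C : ℝ, ∀ f : (EuclideanSpace ℝ (Fin d)) →L[ℝ] ℝ, Feas x f → ‖f‖ ≤ C) :
    IsCompact (A x) := by
  have h1 : IsCompact (({c : Fin n → ℝ | ∑ k, |c k| ≤ 1} ×ˢ {f : (EuclideanSpace ℝ (Fin d)) →L[ℝ] ℝ | Feas x f}) ∩
      {p : (Fin n → ℝ) × ((EuclideanSpace ℝ (Fin d)) →L[ℝ] ℝ) | ∑ k, |p.1 k| = 1 ∧ p.2 (∑ k, p.1 k • x k) = 1}) := by
    refine (isCompact_l1.prod (isCompact_feas x hC)).inter_right ?_
    refine IsClosed.and (isClosed_eq (by fun_prop) continuous_const)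
      (isClosed_eq (by fun_prop) continuous_const)
  have h2 := h1.image continuous_fst
  convert h2 using 1
  ext c
  constructor
  · rintro ⟨h, f, hf, h'⟩
    exact ⟨(c, f), ⟨⟨h.le, hf⟩, h, h'⟩, rfl⟩
  · rintro ⟨⟨c', f⟩, ⟨⟨-, hf⟩, h, h'⟩, rfl⟩
    exact ⟨h, f, hf, h'⟩

/-! ### the homeomorphism with the sphere -/

noncomputable def toSphere (x : Fin n → (EuclideanSpace ℝ (Fin d))) (c : A x) : Metric.sphere (0 : (EuclideanSpace ℝ (Fin d))) 1 :=
  ⟨(‖∑ k, (c : Fin n → ℝ) k • x k‖)⁻¹ • ∑ k, (c : Fin n → ℝ) k • x k, by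
    have h := image_ne_zero c.2
    rw [mem_sphere_zero_iff_norm, norm_smul, norm_inv, norm_norm]
    exact inv_mul_cancel₀ (norm_ne_zero_iff.2 h)⟩

theorem continuous_toSphere (x : Fin n → (EuclideanSpace ℝ (Fin d))) : Continuous (toSphere x) := by
  refine Continuous.subtype_mk ?_ _
  have h : Continuous (fun c : A x => ∑ k, (c : Fin n → ℝ) k • x k) :=
    continuous_finset_sum _ (fun k _ =>
      ((continuous_apply k).comp continuous_subtype_val).smul continuous_const)
  refine Continuous.smul (Continuous.inv₀ h.norm ?_) h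
  intro c
  exact norm_ne_zero_iff.2 (image_ne_zero c.2)

theorem eq_of_image_eq {x : Fin n → (EuclideanSpace ℝ (Fin d))}
    (hG : ∀ f : (EuclideanSpace ℝ (Fin d)) →L[ℝ] ℝ, Feas x f →
      LinearIndependent ℝ (fun i : {i : Fin n // |f (x i)| = 1} => x i))
    {c c' : Fin n → ℝ} {f : (EuclideanSpace ℝ (Fin d)) →L[ℝ] ℝ} (hf : Feas x f) (hc : ∑ k, |c k| = 1)
    (hc' : ∑ k, |c' k| = 1) (h : f (∑ k, c k • x k) = 1) (h' : f (∑ k, c' k • x k) = 1)
    (he : ∑ k, c k • x k = ∑ k, c' k • x k) : c = c' := by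
  have hli := Fintype.linearIndependent_iff.1 (hG f hf) (fun i => c i - c' i) (by
    have h1 : ∑ k, (c k - c' k) • x k = 0 := by
      simp only [sub_smul, sum_sub_distrib, he, sub_self]
    have h2 : ∑ k ∈ univ.filter (fun k => |f (x k)| = 1), (c k - c' k) • x k =
        ∑ k, (c k - c' k) • x k := by
      refine sum_subset (subset_univ _) (fun k _ hk => ?_)
      have hk' : |f (x k)| ≠ 1 := by simpa using hk
      have e1 : c k = 0 := by
        by_contra h0; exact hk' (witness_abs hf hc h h0)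
      have e2 : c' k = 0 := by
        by_contra h0; exact hk' (witness_abs hf hc' h' h0)
      rw [e1, e2, sub_zero, zero_smul]
    rw [← h1, ← h2]
    exact (Finset.sum_subtype _ (by simp) (fun k => (c k - c' k) • x k)).symm)
  funext k
  by_cases hk : |f (x k)| = 1
  · exact sub_eq_zero.1 (hli ⟨k, hk⟩)
  · have e1 : c k = 0 := by
      by_contra h0; exact hk (witness_abs hf hc h h0)
    have e2 : c' k = 0 := by
      by_contra h0; exact hk (witness_abs hf hc' h' h0)
    rw [e1, e2]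

theorem injective_toSphere {x : Fin n → (EuclideanSpace ℝ (Fin d))}
    (hG : ∀ f : (EuclideanSpace ℝ (Fin d)) →L[ℝ] ℝ, Feas x f →
      LinearIndependent ℝ (fun i : {i : Fin n // |f (x i)| = 1} => x i)) :
    Function.Injective (toSphere x) := by
  rintro ⟨c, hc⟩ ⟨c', hc'⟩ h
  have h0 := image_ne_zero hc
  have h0' := image_ne_zero hc'
  have h1 : (‖∑ k, c k • x k‖)⁻¹ • ∑ k, c k • x k = (‖∑ k, c' k • x k‖)⁻¹ • ∑ k, c' k • x k :=
    congrArg Subtype.val h
  obtain ⟨hs, f, hf, hw⟩ := hc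
  obtain ⟨hs', f', hf', hw'⟩ := hc'
  set v := ∑ k, c k • x k with hv
  set v' := ∑ k, c' k • x k with hv'
  have hp : 0 < (‖v‖)⁻¹ := inv_pos.2 (norm_pos_iff.2 h0)
  have hp' : 0 < (‖v'‖)⁻¹ := inv_pos.2 (norm_pos_iff.2 h0')
  have e1 : f v' ≤ 1 := by rw [hv', ← hs']; exact apply_le hf c'
  have e2 : f' v ≤ 1 := by rw [hv, ← hs]; exact apply_le hf' c
  have a1 : (‖v‖)⁻¹ = (‖v'‖)⁻¹ * f v' := by
    have := congrArg f h1
    simpa [hw] using this
  have a2 : (‖v‖)⁻¹ * f' v = (‖v'‖)⁻¹ := by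
    have := congrArg f' h1
    simpa [hw'] using this
  have b1 : (‖v‖)⁻¹ ≤ (‖v'‖)⁻¹ := by rw [a1]; nlinarith
  have b2 : (‖v'‖)⁻¹ ≤ (‖v‖)⁻¹ := by rw [← a2]; nlinarith
  have b3 : (‖v‖)⁻¹ = (‖v'‖)⁻¹ := le_antisymm b1 b2
  have b4 : v = v' := by
    rw [b3] at h1
    exact smul_right_injective _ hp'.ne' h1
  have b5 : f v' = 1 := by rw [← b4]; exact hw
  exact Subtype.ext (eq_of_image_eq hG hf hs hs' hw b5 b4)

theorem surjective_toSphere {x : Fin n → (EuclideanSpace ℝ (Fin d))}
    (hC : ∃ C : ℝ, ∀ f : (EuclideanSpace ℝ (Fin d)) →L[ℝ] ℝ, Feas x f → ‖f‖ ≤ C) :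
    Function.Surjective (toSphere x) := by
  rintro ⟨u, hu⟩
  have hu1 : ‖u‖ = 1 := mem_sphere_zero_iff_norm.1 hu
  -- the maximizing functional
  obtain ⟨f, hf, hmax⟩ := (isCompact_feas x hC).exists_isMaxOn ⟨0, fun k => by simp⟩
    (f := fun f : (EuclideanSpace ℝ (Fin d)) →L[ℝ] ℝ => f u) (by fun_prop)
  have hpos : 0 < f u := by
    set g : (EuclideanSpace ℝ (Fin d)) →L[ℝ] ℝ := innerSL ℝ u with hg
    set s : ℝ := 1 + ∑ k, |g (x k)| with hs
    have hs0 : 0 < s := by
      have : 0 ≤ ∑ k, |g (x k)| := sum_nonneg (fun k _ => abs_nonneg _)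
      linarith
    have hfe : Feas x (s⁻¹ • g) := by
      intro k
      have h1 : |g (x k)| ≤ s := by
        have := single_le_sum (f := fun k => |g (x k)|) (fun i _ => abs_nonneg _) (mem_univ k)
        linarith
      rw [ContinuousLinearMap.smul_apply, smul_eq_mul, abs_mul, abs_of_pos (inv_pos.2 hs0)]
      rw [inv_mul_le_iff₀ hs0]
      simpa using h1
    have h2 := hmax hfe
    simp only [Set.mem_setOf_eq, ContinuousLinearMap.smul_apply, smul_eq_mul] at h2
    have h3 : g u = 1 := by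
      rw [hg, innerSL_apply_apply, real_inner_self_eq_norm_sq, hu1]; norm_num
    rw [h3, mul_one] at h2
    exact lt_of_lt_of_le (inv_pos.2 hs0) h2
  set r : ℝ := (f u)⁻¹ with hr
  have hr0 : 0 < r := inv_pos.2 hpos
  -- the body
  have hPc : IsCompact ((fun c : Fin n → ℝ => ∑ k, c k • x k) '' {c | ∑ k, |c k| ≤ 1}) :=
    isCompact_l1.image (by fun_prop)
  have hconv0 : Convex ℝ {c : Fin n → ℝ | ∑ k, |c k| ≤ 1} := by
    intro c hc c' hc' a b ha hb hab
    simp only [Set.mem_setOf_eq] at *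
    calc ∑ k, |(a • c + b • c') k| ≤ ∑ k, (a * |c k| + b * |c' k|) := by
          refine sum_le_sum (fun k _ => ?_)
          simp only [Pi.add_apply, Pi.smul_apply, smul_eq_mul]
          refine (abs_add_le _ _).trans ?_
          rw [abs_mul, abs_mul, abs_of_nonneg ha, abs_of_nonneg hb]
      _ = a * ∑ k, |c k| + b * ∑ k, |c' k| := by rw [sum_add_distrib, mul_sum, mul_sum]
      _ ≤ a * 1 + b * 1 := by gcongr
      _ = 1 := by rw [mul_one, mul_one, hab]
  have hconv : Convex ℝ ((fun c : Fin n → ℝ => ∑ k, c k • x k) '' {c | ∑ k, |c k| ≤ 1}) := by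
    have := hconv0.is_linear_image (f := fun c : Fin n → ℝ => ∑ k, c k • x k)
      ⟨fun a b => by simp [add_smul, sum_add_distrib], fun a b => by
        simp [smul_sum, smul_smul]⟩
    exact this
  have hmem : r • u ∈ (fun c : Fin n → ℝ => ∑ k, c k • x k) '' {c | ∑ k, |c k| ≤ 1} := by
    by_contra hne
    obtain ⟨g, s, hg1, hg2⟩ := geometric_hahn_banach_closed_point hconv hPc.isClosed hne
    have hs0 : 0 < s := by
      have := hg1 0 ⟨0, by simp, by simp⟩
      simpa using this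
    have hk1 : ∀ k, |g (x k)| ≤ s := by
      intro k
      rw [abs_le]
      have h1 := hg1 (x k) ⟨Pi.single k 1, by
        simp only [Set.mem_setOf_eq, Pi.single_apply]
        rw [sum_eq_single k]
        · simp
        · intro b _ hb; simp [hb]
        · simp, by
        simp only [Pi.single_apply, ite_smul, one_smul, zero_smul]
        simp⟩
      have h2 := hg1 (-x k) ⟨Pi.single k (-1), by
        simp only [Set.mem_setOf_eq, Pi.single_apply]
        rw [sum_eq_single k]
        · simp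
        · intro b _ hb; simp [hb]
        · simp, by
        simp only [Pi.single_apply, ite_smul, neg_smul, one_smul, zero_smul]
        simp⟩
      rw [map_neg] at h2
      constructor <;> linarith
    have hfe : Feas x (s⁻¹ • g) := by
      intro k
      rw [ContinuousLinearMap.smul_apply, smul_eq_mul, abs_mul, abs_of_pos (inv_pos.2 hs0)]
      rw [inv_mul_le_iff₀ hs0]
      simpa using hk1 k
    have h2 := hmax hfe
    simp only [Set.mem_setOf_eq, ContinuousLinearMap.smul_apply, smul_eq_mul] at h2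
    rw [map_smul, smul_eq_mul, hr] at hg2
    have h3 : s * f u < g u := by
      rw [lt_inv_mul_iff₀ hpos] at hg2
      linarith
    have h4 : f u < s⁻¹ * g u := by
      rw [lt_inv_mul_iff₀ hs0]; exact h3
    linarith
  obtain ⟨c, hc1, hc2⟩ := hmem
  simp only [Set.mem_setOf_eq] at hc1 hc2
  have hfc : f (∑ k, c k • x k) = 1 := by
    rw [hc2, map_smul, smul_eq_mul, hr, inv_mul_cancel₀ hpos.ne']
  have hc3 : ∑ k, |c k| = 1 := le_antisymm hc1 (by
    have := apply_le hf c
    rw [hfc] at this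
    exact this)
  refine ⟨⟨c, hc3, f, hf, hfc⟩, ?_⟩
  refine Subtype.ext ?_
  show (‖∑ k, c k • x k‖)⁻¹ • ∑ k, c k • x k = u
  rw [hc2, norm_smul, hu1, mul_one, Real.norm_eq_abs, abs_of_pos hr0, smul_smul,
    inv_mul_cancel₀ hr0.ne', one_smul]

/-! ### the quotient -/

open Classical in
theorem abs_mem {x : Fin n → (EuclideanSpace ℝ (Fin d))} {c : Fin n → ℝ} (hc : c ∈ A x) :
    (fun k => |c k|) ∈ realization (cplx x) := by
  obtain ⟨h1, f, hf, h2⟩ := hc
  refine ⟨fun i => abs_nonneg _, h1, ?_⟩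
  rw [cplx, mem_filter]
  refine ⟨mem_univ _, f, hf, fun i hi => ?_⟩
  have : c i ≠ 0 := by simpa using hi
  exact witness_abs hf h1 h2 this

open Classical in
theorem abs_surj {x : Fin n → (EuclideanSpace ℝ (Fin d))} {t : Fin n → ℝ} (ht : t ∈ realization (cplx x)) :
    ∃ c ∈ A x, (fun k => |c k|) = t := by
  obtain ⟨h0, h1, h2⟩ := ht
  rw [cplx, mem_filter] at h2
  obtain ⟨-, f, hf, h3⟩ := h2
  have key : ∀ k, |t k * f (x k)| = t k := by
    intro k
    rw [abs_mul, abs_of_nonneg (h0 k)]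
    by_cases hk : t k = 0
    · rw [hk, zero_mul]
    · rw [h3 k (by simpa using hk), mul_one]
  refine ⟨fun k => t k * f (x k), ⟨?_, f, hf, ?_⟩, funext key⟩
  · rw [← h1]; exact sum_congr rfl (fun k _ => key k)
  · rw [apply_sum, ← h1]
    refine sum_congr rfl (fun k _ => ?_)
    by_cases hk : t k = 0
    · rw [hk]; ring
    · have h4 : f (x k) * f (x k) = 1 := by
        rw [← abs_mul_abs_self, h3 k (by simpa using hk), one_mul]
      rw [mul_assoc, h4, mul_one]

/-- no pair of vertices is joined by two edges -/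
def NoConflict (x : Fin n → (EuclideanSpace ℝ (Fin d))) : Prop :=
  ∀ i j, i ≠ j → ¬ ((∃ f : (EuclideanSpace ℝ (Fin d)) →L[ℝ] ℝ, Feas x f ∧ f (x i) = 1 ∧ f (x j) = 1) ∧
    (∃ f : (EuclideanSpace ℝ (Fin d)) →L[ℝ] ℝ, Feas x f ∧ f (x i) = 1 ∧ f (x j) = -1))

theorem eq_of_abs_eq {x : Fin n → (EuclideanSpace ℝ (Fin d))} (hN : NoConflict x) {c c' : Fin n → ℝ} (hc : c ∈ A x)
    (hc' : c' ∈ A x) (h : ∀ k, |c k| = |c' k|) {i : Fin n} (hi : c i = c' i) (hi0 : c i ≠ 0) :
    c = c' := by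
  obtain ⟨h1, f, hf, h2⟩ := hc
  obtain ⟨h1', f', hf', h2'⟩ := hc'
  funext j
  by_contra hne
  have hj : c' j = -c j := by
    rcases abs_eq_abs.1 (h j) with h3 | h3
    · exact absurd h3 hne
    · rw [h3, neg_neg]
  have hij : i ≠ j := by
    rintro rfl; exact hne hi
  have hj0 : c j ≠ 0 := by
    intro h0; apply hne; rw [hj, h0, neg_zero]
  have w1 := witness hf h1 h2 i
  have w2 := witness hf h1 h2 j
  have w1' := witness hf' h1' h2' i
  have w2' := witness hf' h1' h2' j
  rw [← h i, ← hi] at w1'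
  rw [← h j, hj] at w2'
  have s1 : f' (x i) = f (x i) := mul_left_cancel₀ hi0 (w1'.trans w1.symm)
  have s2 : f' (x j) = - f (x j) := by
    have : (-c j) * f' (x j) = (-c j) * (-f (x j)) := by rw [w2', ← w2]; ring
    exact mul_left_cancel₀ (neg_ne_zero.2 hj0) this
  have a1 := witness_abs hf h1 h2 hi0
  have a2 := witness_abs hf h1 h2 hj0
  rcases (abs_eq zero_le_one).1 a1 with e1 | e1 <;> rcases (abs_eq zero_le_one).1 a2 with e2 | e2
  · exact hN i j hij ⟨⟨f, hf, e1, e2⟩, ⟨f', hf', by rw [s1, e1], by rw [s2, e2]⟩⟩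
  · exact hN i j hij ⟨⟨f', hf', by rw [s1, e1], by rw [s2, e2, neg_neg]⟩, ⟨f, hf, e1, e2⟩⟩
  · exact hN i j hij ⟨⟨-f', fun k => by simpa using hf' k, by simp [s1, e1], by simp [s2, e2]⟩,
      ⟨-f, fun k => by simpa using hf k, by simp [e1], by simp [e2]⟩⟩
  · exact hN i j hij ⟨⟨-f, fun k => by simpa using hf k, by simp [e1], by simp [e2]⟩,
      ⟨-f', fun k => by simpa using hf' k, by simp [s1, e1], by simp [s2, e2]⟩⟩

theorem homeo {x : Fin n → (EuclideanSpace ℝ (Fin d))}
    (hC : ∃ C : ℝ, ∀ f : (EuclideanSpace ℝ (Fin d)) →L[ℝ] ℝ, Feas x f → ‖f‖ ≤ C)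
    (hG : ∀ f : (EuclideanSpace ℝ (Fin d)) →L[ℝ] ℝ, Feas x f →
      LinearIndependent ℝ (fun i : {i : Fin n // |f (x i)| = 1} => x i))
    (hN : NoConflict x) :
    Nonempty (realization (cplx x) ≃ₜ Quotient (antipodal d)) := by
  have : CompactSpace (A x) := isCompact_iff_compactSpace.1 (isCompact_A x hC)
  let e : A x ≃ Metric.sphere (0 : (EuclideanSpace ℝ (Fin d))) 1 :=
    Equiv.ofBijective (toSphere x) ⟨injective_toSphere hG, surjective_toSphere hC⟩
  let H : A x ≃ₜ Metric.sphere (0 : (EuclideanSpace ℝ (Fin d))) 1 :=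
    Continuous.homeoOfEquivCompactToT2 (f := e) (continuous_toSphere x)
  have hH : ∀ c, H c = toSphere x c := fun c => rfl
  let g : A x → realization (cplx x) := fun c => ⟨fun k => |(c : Fin n → ℝ) k|, abs_mem c.2⟩
  have hg : Continuous g := by
    refine Continuous.subtype_mk ?_ _
    exact continuous_pi (fun k => ((continuous_apply k).comp continuous_subtype_val).abs)
  let F : C(Metric.sphere (0 : (EuclideanSpace ℝ (Fin d))) 1, realization (cplx x)) :=
    ⟨fun u => g (H.symm u), hg.comp H.symm.continuous⟩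
  have hF : Continuous F := F.continuous
  have hFs : Function.Surjective F := by
    rintro ⟨t, ht⟩
    obtain ⟨c, hc, h⟩ := abs_surj ht
    refine ⟨H ⟨c, hc⟩, ?_⟩
    show g (H.symm (H ⟨c, hc⟩)) = _
    rw [H.symm_apply_apply]
    exact Subtype.ext h
  have : CompactSpace (Metric.sphere (0 : (EuclideanSpace ℝ (Fin d))) 1) := isCompact_iff_compactSpace.1 (isCompact_sphere _ _)
  have hq : IsQuotientMap F := hF.isClosedMap.isQuotientMap hF hFs
  have hneg : ∀ c : A x, (toSphere x ⟨-(c : Fin n → ℝ), neg_mem_A c.2⟩ : (EuclideanSpace ℝ (Fin d))) = -(toSphere x c : (EuclideanSpace ℝ (Fin d))) := by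
    intro c
    simp [toSphere]
  have hker : antipodal d = Setoid.ker F := by
    refine Setoid.ext (fun u v => ?_)
    rw [Setoid.ker_def]
    constructor
    · rintro (h | h)
      · rw [h]
      · -- u = -v
        obtain ⟨c, rfl⟩ := H.surjective v
        have hu : u = H ⟨-(c : Fin n → ℝ), neg_mem_A c.2⟩ := by
          refine Subtype.ext ?_
          rw [hH, hneg, h, hH]
        rw [hu]
        show g (H.symm _) = g (H.symm _)
        rw [H.symm_apply_apply, H.symm_apply_apply]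
        refine Subtype.ext (funext fun k => ?_)
        simp [g]
    · intro h
      obtain ⟨c, rfl⟩ := H.surjective u
      obtain ⟨c', rfl⟩ := H.surjective v
      have h' : g c = g c' := by
        have h'' : g (H.symm (H c)) = g (H.symm (H c')) := h
        rwa [H.symm_apply_apply, H.symm_apply_apply] at h''
      have habs : ∀ k, |(c : Fin n → ℝ) k| = |(c' : Fin n → ℝ) k| := fun k =>
        congrFun (congrArg Subtype.val h') k
      obtain ⟨i, hi⟩ : ∃ i, (c : Fin n → ℝ) i ≠ 0 := by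
        by_contra hno
        push Not at hno
        have h1 := c.2.1
        simp [hno] at h1
      rcases abs_eq_abs.1 (habs i) with h3 | h3
      · left
        have : (c : Fin n → ℝ) = c' := eq_of_abs_eq hN c.2 c'.2 habs h3 hi
        rw [Subtype.ext this]
      · right
        have : (c : Fin n → ℝ) = -(c' : Fin n → ℝ) :=
          eq_of_abs_eq hN c.2 (neg_mem_A c'.2) (fun k => by simp [habs k]) (by simpa using h3) hi
        have h4 : c = ⟨-(c' : Fin n → ℝ), neg_mem_A c'.2⟩ := Subtype.ext this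
        rw [h4, hH, hneg, hH]
  have key : ∀ s : Setoid (Metric.sphere (0 : (EuclideanSpace ℝ (Fin d))) 1), s = Setoid.ker F →
      Nonempty (realization (cplx x) ≃ₜ Quotient s) := by
    rintro _ rfl
    exact ⟨(IsQuotientMap.homeomorph hq).symm⟩
  exact key _ hker

end Pool.Agent.H161.RP
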